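import Pool.Agent.Helper54.DI.StmtsB

namespace Pool.Agent.Helper83.DI

open Finset Filter Topology Pool.Agent.Helper54.ETR Pool.Agent.Helper54.Poly Pool.Agent.Helper54.DI

theorem deg_below (s : ℕ) : ∀ t : Term, t.Below s → t.deg (Finset.range s) = 0 := by
  intro t
  induction t with
  | zero => intro _; rfl
  | one => intro _; rfl
  | var i => intro h; have h' : i < s := h; simp [Term.deg, h']
  | add a b iha ihb => intro h; simp [Term.deg, iha h.1, ihb h.2]
  | sub a b iha ihb => intro h; simp [Term.deg, iha h.1, ihb h.2]
  | mul a b iha ihb => intro h; simp [Term.deg, iha h.1, ihb h.2]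

theorem deg_ren (X : Finset ℕ) (f : ℕ → ℕ) (hf : ∀ i, f i ∈ X ↔ i ∈ X) :
    ∀ t : Term, (t.ren f).deg X = t.deg X := by
  intro t
  induction t with
  | zero => rfl
  | one => rfl
  | var i => simp [Term.ren, Term.deg, hf]
  | add a b iha ihb => simp [Term.ren, Term.deg, iha, ihb]
  | sub a b iha ihb => simp [Term.ren, Term.deg, iha, ihb]
  | mul a b iha ihb => simp [Term.ren, Term.deg, iha, ihb]

theorem deg_lin (X : Finset ℕ) (f : ℕ → ℕ) : ∀ t : Term, tlin t = true → (t.ren f).deg X ≤ 1 := by
  intro t
  induction t with
  | zero => intro _; simp [Term.ren, Term.deg]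
  | one => intro _; simp [Term.ren, Term.deg]
  | var i => intro _; simp only [Term.ren, Term.deg]; split <;> omega
  | add a b iha ihb =>
    intro h
    have h' : tlin a = true ∧ tlin b = true := by simpa [tlin] using h
    simp only [Term.ren, Term.deg]
    exact max_le (iha h'.1) (ihb h'.2)
  | sub a b iha ihb =>
    intro h
    have h' : tlin a = true ∧ tlin b = true := by simpa [tlin] using h
    simp only [Term.ren, Term.deg]
    exact max_le (iha h'.1) (ihb h'.2)
  | mul a b iha ihb => intro h; simp [tlin] at h

theorem eval_ren (x : ℕ → ℝ) (f : ℕ → ℕ) : ∀ t : Term,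
    (t.ren f).eval x = t.eval (fun i => x (f i)) := by
  intro t
  induction t with
  | zero => rfl
  | one => rfl
  | var i => rfl
  | add a b iha ihb => simp [Term.ren, Term.eval, iha, ihb]
  | sub a b iha ihb => simp [Term.ren, Term.eval, iha, ihb]
  | mul a b iha ihb => simp [Term.ren, Term.eval, iha, ihb]

theorem holds_ren (x : ℕ → ℝ) (f : ℕ → ℕ) : ∀ p : Form,
    (p.ren f).Holds x ↔ p.Holds (fun i => x (f i)) := by
  intro p
  induction p with
  | lt a b => simp only [Form.ren, Form.Holds, eval_ren]
  | le a b => simp only [Form.ren, Form.Holds, eval_ren]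
  | eq a b => simp only [Form.ren, Form.Holds, eval_ren]
  | ge a b => simp only [Form.ren, Form.Holds, eval_ren]
  | gt a b => simp only [Form.ren, Form.Holds, eval_ren]
  | and p q ihp ihq => simp only [Form.ren, Form.Holds, ihp, ihq]
  | or p q ihp ihq => simp only [Form.ren, Form.Holds, ihp, ihq]
  | not p ih => simp only [Form.ren, Form.Holds, ih]

theorem atoms_ren (f : ℕ → ℕ) : ∀ p : Form,
    (p.ren f).atoms = p.atoms.map (fun a => (a.1.ren f, a.2.ren f)) := by
  intro p
  induction p with
  | lt a b => rfl
  | le a b => rfl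
  | eq a b => rfl
  | ge a b => rfl
  | gt a b => rfl
  | and p q ihp ihq => simp only [Form.ren, Form.atoms, ihp, ihq, List.map_append]
  | or p q ihp ihq => simp only [Form.ren, Form.atoms, ihp, ihq, List.map_append]
  | not p ih => simp only [Form.ren, Form.atoms, ih]

/-- translation `χ` of `φ` is good -/
def Good (s : ℕ) (α : ℕ → ℝ) (φ χ : Form) : Prop :=
  (∀ a ∈ χ.atoms, atomDeg (Finset.range s) a ≤ 1) ∧
    ∀ x : ℕ → ℝ, (∀ i < s, x i = α i) → (χ.Holds x ↔ φ.Holds (fun i => x (s + i)))

theorem trI_good (hM : ST_MATCH) (s : ℕ) (α : ℕ → ℝ) (φ : Form) : ∀ D : List (Form × Form),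
    (∀ z ∈ D, Good s α z.1 z.2) → ∀ χ, trI s φ D = some χ → Good s α φ χ := by
  intro D
  induction D with
  | nil => intro _ χ h; simp [trI] at h
  | cons z l ih =>
    obtain ⟨ρ, τ⟩ := z
    intro hD χ h
    by_cases hm : matchb ρ φ.toks = true
    · have e : trI s φ ((ρ, τ) :: l) =
          some (τ.ren (fun i => if i < s then i else s + lk (fvars ρ) (fvars φ) (i - s))) := by
        rw [trI, if_pos hm]
      rw [e] at h
      have hχ := (Option.some.inj h).symm
      have hz := hD (ρ, τ) (by simp)
      have hφ := (hM ρ φ).2 hm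
      refine ⟨?_, ?_⟩
      · intro a ha
        rw [hχ, atoms_ren] at ha
        obtain ⟨b, hb, rfl⟩ := List.mem_map.1 ha
        have h1 := hz.1 b hb
        have hf : ∀ i, (if i < s then i else s + lk (fvars ρ) (fvars φ) (i - s)) ∈ Finset.range s ↔
            i ∈ Finset.range s := by
          intro i
          by_cases hi : i < s
          · simp [hi]
          · simp [hi]
        simpa [atomDeg, deg_ren _ _ hf] using h1
      · intro x hx
        rw [hχ, holds_ren]
        have h2 := hz.2 (fun i => x (if i < s then i else s + lk (fvars ρ) (fvars φ) (i - s)))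
          (by intro i hi; simp only [if_pos hi]; exact hx i hi)
        rw [h2]
        have e2 : (fun i => x (if s + i < s then s + i else
            s + lk (fvars ρ) (fvars φ) (s + i - s))) =
            fun i => x (s + lk (fvars ρ) (fvars φ) i) := by
          funext i
          have : ¬ (s + i < s) := by omega
          rw [if_neg this, Nat.add_sub_cancel_left]
        have e3 : φ.Holds (fun i => x (s + i)) ↔
            ρ.Holds (fun i => x (s + lk (fvars ρ) (fvars φ) i)) := by
          have := holds_ren (fun i => x (s + i)) (lk (fvars ρ) (fvars φ)) ρ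
          rw [← hφ] at this
          exact this
        rw [e3]
        show ρ.Holds (fun i => x (if s + i < s then s + i else
            s + lk (fvars ρ) (fvars φ) (s + i - s))) ↔ _
        rw [e2]
    · have e : trI s φ ((ρ, τ) :: l) = trI s φ l := by
        rw [trI, if_neg hm]
      rw [e] at h
      exact ih (fun z hz => hD z (List.mem_cons_of_mem _ hz)) χ h

theorem trI_none (s : ℕ) (φ : Form) : ∀ D : List (Form × Form), trI s φ D = none →
    (D.map Prod.fst).any (fun ρ => matchb ρ φ.toks) = false := by
  intro D
  induction D with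
  | nil => intro _; rfl
  | cons z l ih =>
    obtain ⟨ρ, τ⟩ := z
    intro h
    by_cases hm : matchb ρ φ.toks = true
    · rw [trI, if_pos hm] at h
      exact absurd h (by simp)
    · rw [trI, if_neg hm] at h
      have := ih h
      simp only [List.map_cons, List.any_cons, this, Bool.or_false]
      exact Bool.eq_false_iff.2 hm

theorem getD_good (hM : ST_MATCH) (s : ℕ) (α : ℕ → ℝ) (φ : Form) (D : List (Form × Form))
    (hD : ∀ z ∈ D, Good s α z.1 z.2) (fb : Form) (c : Bool)
    (hok : ((D.map Prod.fst).any (fun ρ => matchb ρ φ.toks) || c) = true)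
    (hfb : c = true → Good s α φ fb) : Good s α φ ((trI s φ D).getD fb) := by
  cases h : trI s φ D with
  | some χ => exact trI_good hM s α φ D hD χ h
  | none =>
    have h1 := trI_none s φ D h
    rw [h1, Bool.false_or] at hok
    exact hfb hok

theorem good_atom (s : ℕ) (α : ℕ → ℝ) (φ : Form) (a b : Term) (hat : φ.atoms = [(a, b)])
    (hl : (tlin a && tlin b) = true) : Good s α φ (φ.ren (fun i => s + i)) := by
  have h' : tlin a = true ∧ tlin b = true := by simpa using hl
  refine ⟨?_, ?_⟩
  · intro c hc
    rw [atoms_ren, hat] at hc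
    simp only [List.map_cons, List.map_nil, List.mem_cons, List.not_mem_nil, or_false] at hc
    rw [hc]
    exact max_le (deg_lin _ _ a h'.1) (deg_lin _ _ b h'.2)
  · intro x _
    exact holds_ren x _ φ

theorem trF_good (hM : ST_MATCH) (s : ℕ) (α : ℕ → ℝ) (D : List (Form × Form))
    (hD : ∀ z ∈ D, Good s α z.1 z.2) : ∀ φ : Form, okF (D.map Prod.fst) φ = true →
    Good s α φ (trF s D φ) := by
  intro φ
  induction φ with
  | lt a b =>
    intro h
    rw [okF] at h
    rw [trF]
    exact getD_good hM s α _ D hD _ _ h (good_atom s α _ a b rfl)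
  | le a b =>
    intro h
    rw [okF] at h
    rw [trF]
    exact getD_good hM s α _ D hD _ _ h (good_atom s α _ a b rfl)
  | eq a b =>
    intro h
    rw [okF] at h
    rw [trF]
    exact getD_good hM s α _ D hD _ _ h (good_atom s α _ a b rfl)
  | ge a b =>
    intro h
    rw [okF] at h
    rw [trF]
    exact getD_good hM s α _ D hD _ _ h (good_atom s α _ a b rfl)
  | gt a b =>
    intro h
    rw [okF] at h
    rw [trF]
    exact getD_good hM s α _ D hD _ _ h (good_atom s α _ a b rfl)
  | and p q ihp ihq =>
    intro h
    rw [okF] at h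
    rw [trF]
    refine getD_good hM s α _ D hD _ _ h ?_
    intro hc
    have h' : okF (D.map Prod.fst) p = true ∧ okF (D.map Prod.fst) q = true := by simpa using hc
    have gp := ihp h'.1
    have gq := ihq h'.2
    refine ⟨?_, ?_⟩
    · intro c hc'
      rcases List.mem_append.1 hc' with hh | hh
      · exact gp.1 c hh
      · exact gq.1 c hh
    · intro x hx
      show ((trF s D p).Holds x ∧ (trF s D q).Holds x) ↔ _
      rw [gp.2 x hx, gq.2 x hx]
      rfl
  | or p q ihp ihq =>
    intro h
    rw [okF] at h
    rw [trF]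
    refine getD_good hM s α _ D hD _ _ h ?_
    intro hc
    have h' : okF (D.map Prod.fst) p = true ∧ okF (D.map Prod.fst) q = true := by simpa using hc
    have gp := ihp h'.1
    have gq := ihq h'.2
    refine ⟨?_, ?_⟩
    · intro c hc'
      rcases List.mem_append.1 hc' with hh | hh
      · exact gp.1 c hh
      · exact gq.1 c hh
    · intro x hx
      show ((trF s D p).Holds x ∨ (trF s D q).Holds x) ↔ _
      rw [gp.2 x hx, gq.2 x hx]
      rfl
  | not p ih =>
    intro h
    rw [okF] at h
    rw [trF]
    refine getD_good hM s α _ D hD _ _ h ?_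
    intro hc
    have gp := ih hc
    refine ⟨?_, ?_⟩
    · intro c hc'
      exact gp.1 c hc'
    · intro x hx
      show (¬ (trF s D p).Holds x) ↔ _
      rw [gp.2 x hx]
      rfl

theorem st_TRS (hM : ST_MATCH) : ST_TRS := by
  intro Γ s α δ D hδ hα hΓ hD φ hφ
  subst hΓ
  have hg := trF_good hM s α D hD φ hφ
  refine ⟨?_, ?_⟩
  · have hle : ∀ a ∈ (Form.and δ (trF s D φ)).atoms, atomDeg (Finset.range s) a ≤ 1 := by
      intro a ha
      rcases List.mem_append.1 ha with h | h
      · have := hδ a h
        have h1 := deg_below s a.1 this.1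
        have h2 := deg_below s a.2 this.2
        simp [atomDeg, h1, h2]
      · exact hg.1 a h
    refine ⟨Finset.range s, by simp, fun a ha => (hle a ha).trans (by norm_num), ?_⟩
    refine le_of_eq (List.countP_eq_zero.2 ?_)
    intro a ha
    have := hle a ha
    simp only [decide_eq_true_eq]
    omega
  · constructor
    · rintro ⟨x, hx⟩
      have h1 : δ.Holds x := hx.1
      have h2 : (trF s D φ).Holds x := hx.2
      exact ⟨fun i => x (s + i), (hg.2 x ((hα x).1 h1)).1 h2⟩
    · rintro ⟨y, hy⟩
      let x : ℕ → ℝ := fun i => if i < s then α i else y (i - s)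
      have hx : ∀ i < s, x i = α i := fun i hi => by simp only [x, if_pos hi]
      have e : (fun i => x (s + i)) = y := by
        funext i
        have : ¬ (s + i < s) := by omega
        simp only [x, if_neg this, Nat.add_sub_cancel_left]
      refine ⟨x, (hα x).2 hx, (hg.2 x hx).2 ?_⟩
      rw [e]
      exact hy

end Pool.Agent.Helper83.DI
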